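import Pool.Agent.V7H30.TP.PlaneGap

/-!
# Products of perspectivities with centres on a line

A projective plane of order `n` is a Steiner system `S(n ^ 2 + n + 1, n + 1, 2)`. Let `l` be a line
and `Z` a point of `l`. In a translation plane with respect to `l` the product of a perspectivity
`a → b` and a perspectivity `b → c` with centres on `l`, between three lines `a`, `b`, `c` through
`Z` other than `l`, is a perspectivity `a → c` with centre on `l` (the little theorem of Desargues).

* In a plane whose order is not a prime power, this fails for a positive proportion of the products,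
  for most points `Z` of `l` and whatever the lines `a` and `b` are: for every `N` there are at most
  `1 + 68 N / n ^ 2` points `Z` of `l` with two lines `a`, `b` for which at most `N` of the
  `(n - 2) n ^ 2` products fail.
* In every plane of order `n ≥ 6`, either no product fails for `Z`, or at least `n (n - 1) / 7`
  products fail for all `a`, `b`; and either no product fails for any `Z`, or at least
  `n (n - 1) / 7` products fail for all `Z` but one and all `a`, `b`.
-/

set_option autoImplicit false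

namespace Pool.Agent.Results.MP_409a13_co.LittleDesarguesGapH30

open Pool.Agent.N606.ST Pool.Agent.V7H30.TP

theorem result :
    -- (1) the order is not a prime power
    (∀ (V : Type) [Fintype V] (n : ℕ) (B : Finset (Finset V)) (l : Finset V),
      Plane n B → l ∈ B → 2 ≤ n → ¬ IsPrimePow n → ∀ N : ℕ,
        {Z | Z ∈ l ∧ ∃ a b, Line B l Z a ∧ Line B l Z b ∧ a ≠ b ∧
          (fail B l Z a b).ncard ≤ N}.ncard * n ^ 2 ≤ n ^ 2 + 68 * N) ∧
    -- (2) the gap for one point
    (∀ (V : Type) [Fintype V] (n : ℕ) (B : Finset (Finset V)) (l : Finset V),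
      Plane n B → l ∈ B → 6 ≤ n → ∀ Z ∈ l,
        (∀ a b, Line B l Z a → Line B l Z b → fail B l Z a b = ∅) ∨
        (∀ a b, Line B l Z a → Line B l Z b → a ≠ b →
          n * (n - 1) ≤ 7 * (fail B l Z a b).ncard)) ∧
    -- (3) the gap for two points
    (∀ (V : Type) [Fintype V] (n : ℕ) (B : Finset (Finset V)) (l : Finset V),
      Plane n B → l ∈ B → 6 ≤ n →
        (∀ Z ∈ l, ∀ a b, Line B l Z a → Line B l Z b → fail B l Z a b = ∅) ∨
        (∃ Z₀ ∈ l, ∀ Z ∈ l, Z ≠ Z₀ → ∀ a b, Line B l Z a → Line B l Z b → a ≠ b →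
          n * (n - 1) ≤ 7 * (fail B l Z a b).ncard)) := by
  refine ⟨?_, ?_, ?_⟩
  · intro V _ n B l hB hl hn hnp N
    exact plane_tail hB hl hn hnp N
  · intro V _ n B l hB hl hn Z hZ
    by_cases hc : ∃ a b, Line B l Z a ∧ Line B l Z b ∧ a ≠ b ∧
        7 * (fail B l Z a b).ncard < n * (n - 1)
    · obtain ⟨a, b, ha, hb, hab, hT⟩ := hc
      exact Or.inl fun a' b' ha' hb' => plane_gap hB hl (by omega) hn hZ ha hb hab hT ha' hb'
    · refine Or.inr fun a b ha hb hab => ?_
      by_contra hT
      exact hc ⟨a, b, ha, hb, hab, not_le.1 hT⟩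
  · intro V _ n B l hB hl hn
    obtain ⟨Z₁, hZ₁⟩ : l.Nonempty := Finset.card_pos.1 (by rw [hB.2.1 l hl]; omega)
    by_cases hc : ∃ Z ∈ l, ∃ a b, Line B l Z a ∧ Line B l Z b ∧ a ≠ b ∧
        7 * (fail B l Z a b).ncard < n * (n - 1)
    · obtain ⟨Z, hZ, a, b, ha, hb, hab, hT⟩ := hc
      by_cases hc' : ∃ X ∈ l, X ≠ Z ∧ ∃ a b, Line B l X a ∧ Line B l X b ∧ a ≠ b ∧
        7 * (fail B l X a b).ncard < n * (n - 1)
      · obtain ⟨X, hX, hXZ, c, d, hc, hd, hcd, hT'⟩ := hc'
        exact Or.inl fun Y hY a' b' ha' hb' => plane_two hB hl (by omega) hn hZ hX hXZ.symm ha hb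
          hab hT hc hd hcd hT' hY ha' hb'
      · refine Or.inr ⟨Z, hZ, fun X hX hXZ a' b' ha' hb' hab' => ?_⟩
        by_contra hT'
        exact hc' ⟨X, hX, hXZ, a', b', ha', hb', hab', not_le.1 hT'⟩
    · refine Or.inr ⟨Z₁, hZ₁, fun X hX _ a' b' ha' hb' hab' => ?_⟩
      by_contra hT'
      exact hc ⟨X, hX, a', b', ha', hb', hab', not_le.1 hT'⟩

end Pool.Agent.Results.MP_409a13_co.LittleDesarguesGapH30
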